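import Pool.Agent.V5helper57.Hyp.Glob

/-!
# Jacobians of every dimension over every number field: the products of Birch and Swinnerton-Dyer are Brownian paths

Let `K` be a number field, `g ≥ 1` and `r ≤ 2 g`. We consider the hyperelliptic curves of genus `g` with `r` marked points

  `C_t : y² = (x - t₀) ⋯ (x - t_{r-1}) · u(x) + h(x)²`,   marked points `(t_i, h(t_i))`,

where `u` runs over the monic polynomials of degree `2 g + 1 - r` and `h` over the polynomials of degree at most `g` with
coefficients in the ring of integers of `K` (for `r = 0` the right side `u + h²` is a general monic polynomial of degree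
`2 g + 1`). The Jacobian `J_t` of `C_t` is an abelian variety of dimension `g`, and the marked points generate a subgroup
of `J_t(K)` of rank `r` for general `t`.

Let `P(y)` be the product of the inverse Euler factors `P_v(q_v⁻¹)` of `L(s, J_t)` at `s = 1` over the good primes `v` of `K`
of norm `q_v ≤ y`; `P_v(q_v⁻¹) = #J_t(k_v) / q_v ^ g`. Birch and Swinnerton-Dyer found their conjecture from such products:
`P(y) ~ C (log y) ^ ρ` implies `ord_{s = 1} L(s, J_t) = ρ`. We prove an invariance principle, on average over `t`, on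
all windows `T ≤ log log y ≤ T + l` of the time `log log y`: if the parameters `t_i` have random coordinates of
absolute value at most `H` with respect to an integral basis, then the path

  `t ↦ (log P(exp (exp (T + t l))) - log P(exp (exp T)) - (r + 1 / 2) t l) / √l`,  `0 ≤ t ≤ 1`,

converges in distribution, for the uniform distance, to the standard Brownian motion if `l → ∞`, uniformly in `T ≥ 0` and in
`H ≥ y ^ 11`, `y = exp (exp (T + l))`. So for every dimension `g` and every `K` each of the marked points increases the drift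
of `log P(y)` by one as long as `y ≤ H ^ (1 / 11)`; there remains a drift `1 / 2` and a Brownian fluctuation of variance
`log log y`, independent of `g`, and `P(y)` is not `(log y) ^ ρ` on this range.

The Euler factor of the Jacobian is `P_v(T) = exp (-∑_{m ≥ 1} a_m T ^ m / m)` with `a_m = q_v ^ m + 1 - #C_t(k_{v,m})`, where `k_{v,m}` is
the extension of degree `m` of the residue field `k_v` (numerator of the zeta function of the reduction of `C_t`).

From Mathlib: `IsBrownianReal B P`: `B` is a standard Brownian motion on the probability space with the measure `P`;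
`v.asIdeal.ResidueField` is the residue field of the prime `v`.

Weil's bound for the character sums is from the starting files (`H341R2`), as are the estimates for characteristic functions, fourth
moments and maxima (`X280`).
-/

set_option autoImplicit false

namespace Pool.Agent.Results.MP_1d384c_nt.HyperellipticPaths

open MeasureTheory ProbabilityTheory NumberField IsDedekindDomain Polynomial
open scoped NNReal

/-- The polynomial `h`, with the coefficients `t_{2g+1}, …, t_{3g+1}`. -/
noncomputable def section₀ {R : Type} [CommRing R] (g : ℕ) (t : ℕ → R) : R[X] :=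
  ∑ j ∈ Finset.range (g + 1), C (t (2 * g + 1 + j)) * X ^ j

/-- The polynomial `(x - t₀) ⋯ (x - t_{r-1}) · u(x) + h(x)²`, where `u` is monic of degree `2 g + 1 - r` with the
coefficients `t_r, …, t_{2g}`. -/
noncomputable def family {R : Type} [CommRing R] (g r : ℕ) (t : ℕ → R) : R[X] :=
  (∏ i ∈ Finset.range r, (X - C (t i))) *
    (X ^ (2 * g + 1 - r) + ∑ j ∈ Finset.range (2 * g + 1 - r), C (t (r + j)) * X ^ j) + section₀ g t ^ 2

section

variable (k : Type) [Field k]

/-- The number of the affine points of `y² = f(x)` over the extension of degree `m` of the finite field `k`. -/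
noncomputable def points (f : k[X]) (m : ℕ) : ℕ :=
  Nat.card {P : AlgebraicClosure k × AlgebraicClosure k //
    P.1 ^ Nat.card k ^ m = P.1 ∧ P.2 ^ Nat.card k ^ m = P.2 ∧ P.2 ^ 2 = aeval P.1 f}

/-- The trace `a_m = q ^ m + 1 - #C(k_m)`; the curve has one point at infinity. -/
noncomputable def trace (f : k[X]) (m : ℕ) : ℝ := (Nat.card k : ℝ) ^ m + 1 - (points k f m + 1)

/-- The inverse Euler factor at `s = 1`: `exp (-∑_{m ≥ 1} a_m / (m q ^ m))`. -/
noncomputable def factor (f : k[X]) : ℝ :=
  Real.exp (-∑' m : ℕ, trace k f (m + 1) / ((m + 1) * (Nat.card k : ℝ) ^ (m + 1)))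

end

section

variable {K : Type} [Field K] [NumberField K]

/-- The polynomial `f` modulo the prime `v`. -/
noncomputable def reduction (f : (𝓞 K)[X]) (v : HeightOneSpectrum (𝓞 K)) : v.asIdeal.ResidueField[X] :=
  f.map (algebraMap (𝓞 K) v.asIdeal.ResidueField)

/-- `v` does not divide `2`, and `f` modulo `v` is squarefree. -/
def Good (f : (𝓞 K)[X]) (v : HeightOneSpectrum (𝓞 K)) : Prop := (2 : 𝓞 K) ∉ v.asIdeal ∧ Squarefree (reduction f v)

/-- The product of the inverse Euler factors at `s = 1` over the good primes of norm at most `y`. -/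
noncomputable def product (f : (𝓞 K)[X]) (y : ℝ) : ℝ :=
  ∏ᶠ v ∈ {v : HeightOneSpectrum (𝓞 K) | Good f v ∧ (Ideal.absNorm v.asIdeal : ℝ) ≤ y},
    factor v.asIdeal.ResidueField (reduction f v)

/-- The path of the Jacobian of `y² = f(x)` on the window `T ≤ log log y ≤ T + l`:
`t ↦ (log P(exp (exp (T + t l))) - log P(exp (exp T)) - κ t l) / √l`. -/
noncomputable def path (κ : ℝ) (f : (𝓞 K)[X]) (T l t : ℝ) : ℝ :=
  (Real.log (product f (Real.exp (Real.exp (T + t * l)))) - Real.log (product f (Real.exp (Real.exp T))) - κ * (t * l)) / √l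

/-- The parameters `t_i = ∑ c_ij w_j` for `i < m`. -/
noncomputable def param {m n : ℕ} (w : Fin n → 𝓞 K) (c : Fin m × Fin n → ℤ) (i : ℕ) : 𝓞 K :=
  if h : i < m then ∑ j, (c (⟨i, h⟩, j) : 𝓞 K) * w j else 0

end

/-- The mean value of `F` over the integral matrices `c` with `|c_ij| ≤ H`. -/
noncomputable def mean {m n : ℕ} (H : ℕ) (F : (Fin m × Fin n → ℤ) → ℝ) : ℝ :=
  (∑ c ∈ Fintype.piFinset (fun _ : Fin m × Fin n => Finset.Icc (-(H : ℤ)) H), F c) / (2 * H + 1 : ℝ) ^ (m * n)

/-- `Φ` is bounded and Lipschitz for the uniform distance on `[0, 1]`; in particular it depends only on the values on `[0, 1]`. -/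
def IsTest (Φ : (ℝ → ℝ) → ℝ) : Prop :=
  ∃ M L : ℝ, (∀ f, |Φ f| ≤ M) ∧
    ∀ (f g : ℝ → ℝ) (δ : ℝ), (∀ t ∈ Set.Icc (0 : ℝ) 1, |f t - g t| ≤ δ) → |Φ f - Φ g| ≤ L * δ

/-- **The invariance principle** for the curves of genus `g` with `r` marked points over `K`: for any integral basis `w` of
`K` and random parameters `t_i = ∑ c_ij w_j`, `i < 3 g + 2`, with `|c_ij| ≤ H` the paths converge in distribution to the
Brownian motion for `l → ∞`, uniformly in `T ≥ 0` and in `H ≥ exp (exp (T + l)) ^ 11`. -/
def BrownianLimit (K : Type) [Field K] [NumberField K] (g r : ℕ) : Prop :=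
  ∀ w : Fin (Module.finrank ℚ K) → 𝓞 K, (∀ x : 𝓞 K, ∃ a : Fin (Module.finrank ℚ K) → ℤ, x = ∑ j, (a j : 𝓞 K) * w j) →
  ∀ (Ω : Type) [MeasurableSpace Ω] (P : Measure Ω) (B : ℝ≥0 → Ω → ℝ), IsBrownianReal B P →
    ∀ Φ : (ℝ → ℝ) → ℝ, IsTest Φ → ∀ ε : ℝ, 0 < ε →
      ∃ l₀ : ℝ, ∀ l T : ℝ, l₀ ≤ l → 0 ≤ T → ∀ H : ℕ, Real.exp (Real.exp (T + l)) ^ 11 ≤ (H : ℝ) →
        |mean H (fun c : Fin (3 * g + 2) × Fin (Module.finrank ℚ K) → ℤ =>
            Φ (path (r + 1 / 2) (family g r (param w c)) T l)) -
          ∫ ω, Φ (fun t : ℝ => B t.toNNReal ω) ∂P| ≤ ε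

open Pool.Agent.X280.BP Pool.Agent.V5helper57.Win Pool.Agent.Y722.HS Pool.Agent.V5helper57.Hyp
open Pool.Agent.V5helper57.NGen (SV)

theorem family_eq {R : Type} [CommRing R] (g r : ℕ) (t : ℕ → R) : family g r t = fam g r t := rfl

theorem mean_eq {m n : ℕ} (H : ℕ) (F : (Fin m × Fin n → ℤ) → ℝ) : mean H F = EB H F := by
  unfold mean EB
  rw [Fintype.card_prod, Fintype.card_fin, Fintype.card_fin]
  rfl

section

variable {K : Type} [Field K] [NumberField K]

theorem param_eq {m n : ℕ} (w : Fin n → 𝓞 K) (c : Fin m × Fin n → ℤ) :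
    param w c = ex (Q282.NF.combine w (fun i j => c (i, j))) := by
  funext i
  unfold param ex Q282.NF.combine
  rfl

theorem factor_eq (k : Type) [Field k] (f : k[X]) : factor k f = Real.exp (LF k f) := by
  unfold factor LF
  congr 2
  refine tsum_congr fun m => ?_
  unfold trace points affN
  congr 1
  ring

theorem log_product (f : (𝓞 K)[X]) {y : ℝ} (hy : 0 ≤ y) :
    Real.log (product f y) = ∑ᶠ v ∈ {v : HeightOneSpectrum (𝓞 K) | Ideal.absNorm v.asIdeal ≤ ⌊y⌋₊}, lv f v := by
  classical
  obtain ⟨S, hS⟩ : ∃ S : Finset (HeightOneSpectrum (𝓞 K)), S = (Q282.NF.fin_le (K := K) ⌊y⌋₊).toFinset := ⟨_, rfl⟩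
  have hmem : ∀ v, v ∈ S ↔ Ideal.absNorm v.asIdeal ≤ ⌊y⌋₊ := by
    intro v
    rw [hS, Set.Finite.mem_toFinset, Set.mem_ofPred_eq]
  have h1 : product f y = ∏ v ∈ S.filter (Good f), factor v.asIdeal.ResidueField (reduction f v) := by
    unfold product
    refine finprod_mem_eq_prod_of_inter_mulSupport_eq _ ?_
    congr 1
    ext v
    rw [Set.mem_ofPred_eq, Finset.mem_coe, Finset.mem_filter, hmem, Nat.le_floor_iff hy]
    exact and_comm
  have h2 : ∑ᶠ v ∈ {v : HeightOneSpectrum (𝓞 K) | Ideal.absNorm v.asIdeal ≤ ⌊y⌋₊}, lv f v = ∑ v ∈ S, lv f v := by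
    refine finsum_mem_eq_sum_of_inter_support_eq _ ?_
    congr 1
    ext v
    rw [Set.mem_ofPred_eq, Finset.mem_coe, hmem]
  rw [h1, h2, Real.log_prod, Finset.sum_filter]
  · refine Finset.sum_congr rfl fun v _ => ?_
    rw [factor_eq, Real.log_exp]
    unfold lv
    by_cases h : Good f v
    · rw [if_pos h]
      have h' : (2 : 𝓞 K) ∉ v.asIdeal ∧ Squarefree (f.map (algebraMap (𝓞 K) v.asIdeal.ResidueField)) := h
      rw [if_pos h']
      rfl
    · rw [if_neg h]
      have h' : ¬ ((2 : 𝓞 K) ∉ v.asIdeal ∧ Squarefree (f.map (algebraMap (𝓞 K) v.asIdeal.ResidueField))) := h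
      rw [if_neg h']
  · intro v _
    rw [factor_eq]
    exact (Real.exp_pos _).ne'

theorem path_eq (κ : ℝ) (g r : ℕ) (w : Fin (Module.finrank ℚ K) → 𝓞 K) (T l : ℝ)
    (c : Fin (3 * g + 2) × Fin (Module.finrank ℚ K) → ℤ) :
    path κ (family g r (param w c)) T l =
      Pool.Agent.V5helper57.Win.path (fun X c => SV (VV K g r (3 * g + 2)) (Q282.NF.combine w (fun i j => c (i, j))) X) κ T l c := by
  funext t
  unfold path Pool.Agent.V5helper57.Win.path Y
  rw [log_product _ (Real.exp_pos _).le, log_product _ (Real.exp_pos _).le, family_eq, param_eq]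
  rfl

end

/-- The members of the family: `f` is monic of degree `2 g + 1`, and `(t_i, h(t_i))` is a point of `y² = f(x)` for `i < r`. -/
theorem members {R : Type} [CommRing R] [Nontrivial R] {g r : ℕ} (hr : r ≤ 2 * g) (t : ℕ → R) :
    (family g r t).Monic ∧ (family g r t).natDegree = 2 * g + 1 ∧
      ∀ i < r, ((section₀ g t).eval (t i)) ^ 2 = (family g r t).eval (t i) := by
  refine ⟨(fam_monic hr t).1, (fam_monic hr t).2, fun i hi => ?_⟩
  unfold family
  rw [eval_add, eval_mul, eval_prod, Finset.prod_eq_zero (Finset.mem_range.2 hi) (by simp), zero_mul, zero_add, eval_pow]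

/-- **The products of Birch and Swinnerton-Dyer of the Jacobians of random hyperelliptic curves of every genus `g` with `r ≤ 2 g`
marked points over every number field are Brownian paths with drift `r + 1 / 2`.** -/
theorem result (K : Type) [Field K] [NumberField K] (g r : ℕ) (hg : 1 ≤ g) (hr : r ≤ 2 * g) :
    (∀ t : ℕ → 𝓞 K, (family g r t).Monic ∧ (family g r t).natDegree = 2 * g + 1 ∧
      ∀ i < r, ((section₀ g t).eval (t i)) ^ 2 = (family g r t).eval (t i)) ∧ BrownianLimit K g r := by
  classical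
  refine ⟨fun t => members hr t, ?_⟩
  intro w hw Ω _ P B hB Φ hΦ ε hε
  obtain ⟨M, L, hM, hL⟩ := hΦ
  have hL0 : 0 ≤ L := by
    have := hL 0 0 1 (fun t _ => by simp)
    simpa using this
  have hΦ : Fun Φ M L := ⟨hL0, hM, fun f g δ _ hfg => hL f g δ fun t ht => hfg t ht.1 ht.2⟩
  obtain ⟨K0, K1, Mo⟩ := Pool.Agent.V5helper57.NGen.model (loc_VV K hg hr rfl) w hw
  have h1 := Mo.donsker hB hΦ hε
  rw [Filter.eventually_atTop] at h1
  obtain ⟨l₀, hl₀⟩ := h1
  refine ⟨l₀, fun l T hl hT H hH => ?_⟩
  rw [mean_eq]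
  simp only [path_eq]
  refine hl₀ l hl T hT H ?_
  have h2 : ((Y (T + l) : ℕ) : ℝ) ≤ Real.exp (Real.exp (T + l)) := Nat.floor_le (Real.exp_pos _).le
  have h3 : ((Y (T + l) : ℕ) : ℝ) ^ 11 ≤ Real.exp (Real.exp (T + l)) ^ 11 := pow_le_pow_left₀ (by positivity) h2 11
  exact_mod_cast h3.trans hH

end Pool.Agent.Results.MP_1d384c_nt.HyperellipticPaths
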