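import Pool.Agent.V5helper65.BK.Fin

/-!
# Rank and order of vanishing for the Jacobians of the Kummer covers `y ^ N = F(x, t)` over `k(t)`
and the class number of the branch curve `F = 0`
-/

set_option autoImplicit false

namespace Pool.Agent.Results.MP_1d384c_nt.KummerCovers

open Polynomial

/-- With `g` the degree of `Φ`, all monomials `x^m t^n` of `f ∈ k[t][x]` (outer variable `x`, inner
variable `t`) satisfy `b m + a n ≤ g a b`, and those with equality make up
`∑_{r ≤ g} Φ_r x^{a r} t^{b (g - r)}`, where `Φ_r` is the coefficient of `X^r` in `Φ`. For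
`a = b = 1`: `f` has the total degree `g`, and its leading form is `t^g Φ(x / t)`. -/
structure Leads {k : Type} [Field k] (a b : ℕ) (Φ : k[X]) (f : k[X][X]) : Prop where
  wt : ∀ m n, (f.coeff m).coeff n ≠ 0 → b * m + a * n ≤ Φ.natDegree * (a * b)
  top : ∀ r ≤ Φ.natDegree, (f.coeff (a * r)).coeff (b * (Φ.natDegree - r)) = Φ.coeff r

/-- The value `f(x, t)` at a point with coordinates in an algebraic closure of `k`. -/
noncomputable def value {k : Type} [Field k] (f : k[X][X]) (t x : AlgebraicClosure k) :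
    AlgebraicClosure k :=
  f.eval₂ (eval₂RingHom (algebraMap k (AlgebraicClosure k)) t) x

/-- The number of `(t, x)` with coordinates in `F_Q = {z : z^Q = z}` such that `f(x, t) = 0`. -/
noncomputable def curvePoints {k : Type} [Field k] (f : k[X][X]) (Q : ℕ) : ℕ :=
  Nat.card {v : AlgebraicClosure k × AlgebraicClosure k //
    v.1 ^ Q = v.1 ∧ v.2 ^ Q = v.2 ∧ value f v.1 v.2 = 0}

/-- The number of `(t, x, y)` with coordinates in `F_Q` such that `y^N = f(x, t)`. -/
noncomputable def surfacePoints {k : Type} [Field k] (N : ℕ) (f : k[X][X]) (Q : ℕ) : ℕ :=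
  Nat.card {v : AlgebraicClosure k × AlgebraicClosure k × AlgebraicClosure k //
    v.1 ^ Q = v.1 ∧ v.2.1 ^ Q = v.2.1 ∧ v.2.2 ^ Q = v.2.2 ∧ v.2.2 ^ N = value f v.1 v.2.1}

/-- `L(T) = exp (∑_{m ≥ 1} (q^{2m} - N_m) T^m / m)`, where `q = #k` and
`N_m = surfacePoints N f (q^m)`: that is, `L(0) = 1` and `T L' = L ∑_{m ≥ 1} (q^{2m} - N_m) T^m`. -/
def IsLFunction {k : Type} [Field k] (N : ℕ) (f : k[X][X]) (L : ℤ[X]) : Prop :=
  L.coeff 0 = 1 ∧
    PowerSeries.X * PowerSeries.derivative ℤ (L : PowerSeries ℤ) =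
      (L : PowerSeries ℤ) * PowerSeries.mk fun m => if m = 0 then 0 else
        (Nat.card k : ℤ) ^ (2 * m) - (surfacePoints N f (Nat.card k ^ m) : ℤ)

/-- `P(T) = exp (∑_{m ≥ 1} (M_m - 1 - q^m) T^m / m)`, where `q = #k` and `M_m` is the number of the
points over `F_{q^m}` of the curve `f = 0` together with closed points at infinity of the degrees
`n_i`, that is, `M_m = curvePoints f (q^m) + ∑_{n_i ∣ m} n_i`. -/
def IsNumerator {k : Type} [Field k] {r : ℕ} (n : Fin r → ℕ) (f : k[X][X]) (P : ℤ[X]) : Prop :=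
  P.coeff 0 = 1 ∧
    PowerSeries.X * PowerSeries.derivative ℤ (P : PowerSeries ℤ) =
      (P : PowerSeries ℤ) * PowerSeries.mk fun m => if m = 0 then 0 else
        (curvePoints f (Nat.card k ^ m) : ℤ) + (∑ i, if n i ∣ m then (n i : ℤ) else 0) - 1 -
          (Nat.card k : ℤ) ^ m

/-- The order of vanishing of `L` at `1 / q`. -/
noncomputable def order (q : ℕ) (L : ℤ[X]) : ℕ :=
  (L.map (Int.castRingHom ℚ)).rootMultiplicity (1 / (q : ℚ))

/-- The multiplicity of the root `1` of `P` modulo `ℓ`. It is `0` if `ℓ` does not divide `P(1)`. -/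
noncomputable def mult (ℓ : ℕ) [Fact ℓ.Prime] (P : ℤ[X]) : ℕ :=
  (P.map (Int.castRingHom (ZMod ℓ))).rootMultiplicity 1

/-- `y^N - f` as a polynomial in `y` over `K[x]`, `K = k(t)`. -/
noncomputable def equation {k : Type} [Field k] (N : ℕ) (f : k[X][X]) : (RatFunc k)[X][X] :=
  X ^ N - C (f.map (algebraMap k[X] (RatFunc k)))

/-- The affine coordinate ring `K[x, y]/(y^N - f)` of the curve `y^N = f` over `K = k(t)`. -/
abbrev CoordRing {k : Type} [Field k] (N : ℕ) (f : k[X][X]) : Type := AdjoinRoot (equation N f)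

/-- The rank of the ideal class group. -/
noncomputable def classRank (R : Type) [CommRing R] [IsDomain R] : Cardinal :=
  Module.rank ℤ (Additive (ClassGroup R))

theorem Leads.lead {k : Type} [Field k] {a b : ℕ} {Φ : k[X]} {f : k[X][X]} (h : Leads a b Φ f) :
    Pool.Agent.V5helper65.BK.Leads a b Φ f := ⟨h.wt, h.top⟩

/-- Let `ℓ` be a prime, `N = ℓ^s > 1`, `k` a finite field with `q = 1` modulo `N` elements,
`K = k(t)`, and `F ∈ k[t][x]` an irreducible polynomial with the leading form `H_1 ⋯ H_r` with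
respect to coprime weights, `H_i` pairwise non-associated irreducible polynomials of degrees `n_i`,
`a b ∑ n_i` prime to `ℓ`.

(1) For all integral polynomials `P` and `L` with `IsNumerator` and `IsLFunction` the order of
vanishing of `L` at `1 / q` is at most `(N - 1) (μ + ∑ ℓ ^ (ord_ℓ n_i) - 1)`, where `μ` is the
multiplicity of the root `1` of `P` modulo `ℓ`. So it is at most `(N - 1) (r - 1)` if `ℓ` does not
divide `P(1)` and the `n_i`.

(2) If `F = c^N + G_1 ⋯ G_r` where the `G_i` have the leading forms `H_i`, then the class group of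
`K[x, y]/(y^N - F)` has rank at least `(N - 1) (r - 1)`.

If the affine plane curve `F = 0` is smooth then `P` is the numerator of the zeta function of its
completion `B`, which has the `r` closed points at infinity of degrees `n_i`, `P(1)` is the class
number of `B`, and `L` is the `L`-function in `T = q^(-s)` of the Jacobian `J` of the curve `y^N = F`
over `K` (this curve has one point at infinity; the surface `y^N = F` is smooth, its fibres over the
finite places are irreducible, and the inertia at the place at infinity of `K` has no invariants in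
the first cohomology). The class group is the group `J(K)`. So by Tate's inequality
`rank J(K) ≤ ord L(J, s)` the conjecture of Birch and Swinnerton-Dyer holds for `J`, and the rank is
`(N - 1) (r - 1)`, if `F = c^N + G_1 ⋯ G_r` as above and `ℓ` does not divide the class number of the
branch curve `B` and the degrees `n_i`. (An example with `k = F_5`, `N = 2`, found by counting points
with a computer: for `F = (3x² + x + 4t² + 4t + 2)² + (x - 1)(x - t - 2)(x - 2t)(x - 3t - 3)(x - 4t)` the
curve `B` is smooth of genus `6` with class number `29189`, and `J` has dimension `2` and rank `4`.) -/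
theorem result (ℓ : ℕ) [Fact ℓ.Prime] (s : ℕ) (hs : s ≠ 0) (k : Type) [Field k] [Finite k]
    (hk : ℓ ^ s ∣ Nat.card k - 1) (a b : ℕ) (hab : a.Coprime b) (ha : (a : k) ≠ 0) (hb : b ≠ 0)
    (r : ℕ) (H : Fin r → k[X]) (hirr : ∀ i, Irreducible (H i))
    (hne : ∀ i j, i ≠ j → ¬ Associated (H i) (H j)) (h0 : ∀ i, a = 1 ∨ (H i).coeff 0 ≠ 0)
    (hℓ : ¬ ℓ ∣ a * b * ∑ i, (H i).natDegree) (F : k[X][X]) (hF : Irreducible F)
    (hlead : Leads a b (∏ i, H i) F) :
    (∀ P L : ℤ[X], IsNumerator (fun i => (H i).natDegree) F P → IsLFunction (ℓ ^ s) F L →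
      order (Nat.card k) L ≤
        (ℓ ^ s - 1) * (mult ℓ P + ∑ i, ℓ ^ padicValNat ℓ (H i).natDegree - 1) ∧
      (¬ (ℓ : ℤ) ∣ P.eval 1 → (∀ i, ¬ ℓ ∣ (H i).natDegree) →
        order (Nat.card k) L ≤ (ℓ ^ s - 1) * (r - 1))) ∧
    ∃ _ : IsDomain (CoordRing (ℓ ^ s) F),
      ∀ (G : Fin r → k[X][X]) (c : k[X][X]), (∀ i, Leads a b (H i) (G i)) →
        F = c ^ (ℓ ^ s) + ∏ i, G i →
        (((ℓ ^ s - 1) * (r - 1) : ℕ) : Cardinal) ≤ classRank (CoordRing (ℓ ^ s) F) := by
  have hp : ℓ.Prime := Fact.out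
  have hco : (a * b * ∑ i, (H i).natDegree).Coprime (ℓ ^ s) :=
    (Nat.Coprime.pow_right s ((hp.coprime_iff_not_dvd.2 hℓ).symm))
  have hdeg0 : ∑ i, (H i).natDegree ≠ 0 := by
    intro h
    rw [h, mul_zero] at hℓ
    exact hℓ (dvd_zero ℓ)
  refine ⟨?_, ?_⟩
  · intro P L hP hL
    have key := Pool.Agent.V5helper65.BK.upper hp rfl hs hk F (fun i => (H i).natDegree)
      (fun i => (hirr i).natDegree_pos.ne') P L hP.1 hP.2 hL.1 hL.2
    have h1 : order (Nat.card k) L ≤
        (ℓ ^ s - 1) * (mult ℓ P + ∑ i, ℓ ^ padicValNat ℓ (H i).natDegree - 1) := by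
      rw [Nat.mul_sub, mul_one]
      unfold order mult
      omega
    refine ⟨h1, ?_⟩
    intro hP1 hni
    have h2 : mult ℓ P = 0 := by
      unfold mult
      apply rootMultiplicity_eq_zero
      intro hroot
      apply hP1
      rw [IsRoot.def, eval_map, ← Int.cast_one (R := ZMod ℓ), ← eq_intCast (Int.castRingHom (ZMod ℓ)),
        eval₂_at_apply, eq_intCast] at hroot
      exact (ZMod.intCast_zmod_eq_zero_iff_dvd _ _).1 hroot
    have h3 : ∑ i, ℓ ^ padicValNat ℓ (H i).natDegree = r := by
      have h4 : ∀ i, ℓ ^ padicValNat ℓ (H i).natDegree = 1 := fun i => by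
        rw [padicValNat.eq_zero_of_not_dvd (hni i), pow_zero]
      simp [h4]
    rw [h2, h3, zero_add] at h1
    exact h1
  · obtain ⟨hdom, h⟩ := Pool.Agent.V5helper65.BK.lower_final hp rfl hk hb hab ha hirr hne h0 hco
      hdeg0 hlead.lead hF
    have hdom' : IsDomain (CoordRing (ℓ ^ s) F) := hdom
    refine ⟨hdom', ?_⟩
    intro G c hG hFc
    obtain ⟨Q, hQ⟩ := h G c (fun i => (hG i).lead) hFc
    have h1 := hQ.cardinal_le_rank
    rw [Cardinal.mk_fin] at h1
    exact h1

end Pool.Agent.Results.MP_1d384c_nt.KummerCovers
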