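import Pool.Agent.V5helper46.SS.Upper2

/-!
# Jacobians of Artin–Schreier curves `y^p - y = x^b g(x, t)` over `k(t)`: rank and order of
vanishing are `p - 1` for all `g` with a given irreducible leading form
-/

set_option autoImplicit false

namespace Pool.Agent.Results.MP_1d384c_nt.RankPMinusOne

open Polynomial

/-- The coefficient of `t^(u.1) x^(u.2)` in `f ∈ k[t][x]` (outer variable `x`, inner variable
`t`). -/
noncomputable def coeffAt {k : Type} [Field k] (f : k[X][X]) (u : ℕ × ℕ) : k :=
  (f.coeff u.2).coeff u.1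

/-- The determinant `D_i` of the vectors `V_i` and `V_{i+1}`. -/
def det (V : ℕ → ℕ × ℕ) (i : ℕ) : ℤ :=
  ((V i).1 : ℤ) * (V (i + 1)).2 - (V i).2 * (V (i + 1)).1

/-- The linear form `l_i` with value `D_i` at `V_i` and at `V_{i+1}`. -/
def form (V : ℕ → ℕ × ℕ) (i : ℕ) (u : ℕ × ℕ) : ℤ :=
  (u.1 : ℤ) * (((V (i + 1)).2 : ℤ) - (V i).2) - u.2 * (((V (i + 1)).1 : ℤ) - (V i).1)

/-- `f` is divisible by `x^b`, and the convex hull of its exponents and `0` has the vertices
`V_0, V_1, …, V_n` (`n > 0`) besides `0`, where `V_0` has the second coordinate `b`, `V_n` is on the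
axis of the exponents of `x` and the first coordinate decreases and the second one increases from
each vertex to the next; no exponents other than `V_i` and `V_{i+1}` lie on the edge between these
two, and `D_i` divides `p - 1`. (An exponent `(a, b)` is that of a monomial `t^a x^b`.) -/
structure HasPolygon {k : Type} [Field k] (p b : ℕ) (f : k[X][X]) (n : ℕ) (V : ℕ → ℕ × ℕ) :
    Prop where
  edges : 0 < n
  first : (V 0).2 = b
  divisible : ∀ u, coeffAt f u ≠ 0 → b ≤ u.2
  last : (V n).1 = 0
  left : ∀ i < n, (V (i + 1)).1 < (V i).1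
  up : ∀ i < n, (V i).2 < (V (i + 1)).2
  size : ∀ i < n, det V i ∣ ((p - 1 : ℕ) : ℤ)
  vertex : ∀ i ≤ n, coeffAt f (V i) ≠ 0
  below : ∀ u, coeffAt f u ≠ 0 → ∀ i < n, form V i u ≤ det V i ∧
    (form V i u = det V i → u = V i ∨ u = V (i + 1))

/-- The polynomial `c_{i+1} X^g + c_i` of the edge from `V_i` to `V_{i+1}`, where `c_i` is the
coefficient at `V_i` and `g` is the greatest common divisor of the coordinates of
`V_{i+1} - V_i`. -/
noncomputable def edge {k : Type} [Field k] (f : k[X][X]) (V : ℕ → ℕ × ℕ) (i : ℕ) : k[X] :=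
  C (coeffAt f (V (i + 1))) *
    X ^ Int.gcd (((V (i + 1)).1 : ℤ) - (V i).1) (((V (i + 1)).2 : ℤ) - (V i).2) +
  C (coeffAt f (V i))

/-- The number of irreducible factors. -/
noncomputable def numFactors {k : Type} [Field k] (P : k[X]) : ℕ :=
  (UniqueFactorizationMonoid.factors P).card

/-- `g = α t^B + β x^A + ⋯` with `α, β ≠ 0`, where the exponents `(l, m)` of the monomials
`t^l x^m` of `g` satisfy `A l + B m ≤ A B`. -/
structure LeadsTo {k : Type} [Field k] (A B : ℕ) (g : k[X][X]) : Prop where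
  t : coeffAt g (B, 0) ≠ 0
  x : coeffAt g (0, A) ≠ 0
  below : ∀ u, coeffAt g u ≠ 0 → A * u.1 + B * u.2 ≤ A * B

/-- The value `f(x, t)` at a point with coordinates in an algebraic closure of `k`. -/
noncomputable def value {k : Type} [Field k] (f : k[X][X]) (t x : AlgebraicClosure k) :
    AlgebraicClosure k :=
  f.eval₂ (eval₂RingHom (algebraMap k (AlgebraicClosure k)) t) x

/-- The number of `(t, x, y)` with coordinates in `F_Q = {z : z^Q = z}` such that `t ≠ 0` and
`y^p - y = f(x, t)`. -/
noncomputable def points {k : Type} [Field k] (p : ℕ) (f : k[X][X]) (Q : ℕ) : ℕ :=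
  Nat.card {v : AlgebraicClosure k × AlgebraicClosure k × AlgebraicClosure k //
    v.1 ^ Q = v.1 ∧ v.1 ≠ 0 ∧ v.2.1 ^ Q = v.2.1 ∧ v.2.2 ^ Q = v.2.2 ∧
    v.2.2 ^ p - v.2.2 = value f v.1 v.2.1}

/-- The power series `∑_{m ≥ 1} (q^m (q^m - 1) - N_m) T^m`, where `q = #k` and
`N_m = points p f (q^m)`. -/
noncomputable def traces {k : Type} [Field k] [Fintype k] (p : ℕ) (f : k[X][X]) :
    PowerSeries ℚ :=
  PowerSeries.mk fun m => if m = 0 then 0 else
    (Fintype.card k : ℚ) ^ m * ((Fintype.card k : ℚ) ^ m - 1) -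
      (points p f (Fintype.card k ^ m) : ℚ)

/-- `L(T) = exp (∑_{m ≥ 1} (q^m (q^m - 1) - N_m) T^m / m)`: that is, `L(0) = 1` and
`T L' = L ∑_{m ≥ 1} (q^m (q^m - 1) - N_m) T^m`. -/
def IsLFunction {k : Type} [Field k] [Fintype k] (p : ℕ) (f : k[X][X]) (L : ℚ[X]) : Prop :=
  L.coeff 0 = 1 ∧
    PowerSeries.X * PowerSeries.derivative ℚ (L : PowerSeries ℚ) =
      (L : PowerSeries ℚ) * traces p f

/-- `y^p - y - f` as a polynomial in `y` over `K[x]`, `K = k(t)`. -/
noncomputable def curve {k : Type} [Field k] (p : ℕ) (f : k[X][X]) : (RatFunc k)[X][X] :=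
  X ^ p - X - C (f.map (algebraMap k[X] (RatFunc k)))

/-- The affine coordinate ring `K[x, y]/(y^p - y - f)` of the curve `y^p - y = f` over
`K = k(t)`. -/
abbrev CoordRing {k : Type} [Field k] (p : ℕ) (f : k[X][X]) : Type := AdjoinRoot (curve p f)

/-- The rank of the ideal class group. -/
noncomputable def classRank (R : Type) [CommRing R] [IsDomain R] : Cardinal :=
  Module.rank ℤ (Additive (ClassGroup R))

section

open Pool.Agent.V5helper46.SS

variable {k : Type} [Field k] {p b : ℕ} {f : k[X][X]} {n : ℕ} {V : ℕ → ℕ × ℕ}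

theorem HasPolygon.det_eq (h : HasPolygon p b f n V) {i : ℕ} (hi : i < n) :
    det V i = (wD V i : ℕ) := by
  have h1 := h.up i hi
  have h2 := h.left i hi
  unfold det wD wT wX
  push_cast [Nat.cast_sub h1.le, Nat.cast_sub h2.le]
  ring

theorem HasPolygon.form_eq (h : HasPolygon p b f n V) {i : ℕ} (hi : i < n) (a c : ℕ) :
    form V i (a, c) = ((wT V i * a + wX V i * c : ℕ) : ℤ) := by
  have h1 := h.up i hi
  have h2 := h.left i hi
  unfold form wT wX
  push_cast [Nat.cast_sub h1.le, Nat.cast_sub h2.le]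
  ring

theorem HasPolygon.pgb (h : HasPolygon p b f n V) : Pgb p f n V where
  pos := h.edges
  low := fun l m hlm => by
    rw [h.first]
    exact h.divisible (l, m) hlm
  last := h.last
  dec := h.left
  inc := h.up
  size := fun i hi => by
    have h1 := h.size i hi
    rw [h.det_eq hi] at h1
    exact_mod_cast h1
  vertex := h.vertex
  below := fun l m hlm i hi => by
    have h1 := h.below (l, m) hlm i hi
    rw [h.form_eq hi, h.det_eq hi] at h1
    exact ⟨by exact_mod_cast h1.1, fun h2 => h1.2 (by exact_mod_cast h2)⟩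

theorem HasPolygon.edge_eq (h : HasPolygon p b f n V) {i : ℕ} (hi : i < n) :
    edge f V i = edgeP f V i := by
  have h1 := h.up i hi
  have h2 := h.left i hi
  have h3 : ((V (i + 1)).1 : ℤ) - (V i).1 = -((wX V i : ℕ) : ℤ) := by
    unfold wX
    push_cast [Nat.cast_sub h2.le]
    ring
  have h4 : ((V (i + 1)).2 : ℤ) - (V i).2 = ((wT V i : ℕ) : ℤ) := by
    unfold wT
    push_cast [Nat.cast_sub h1.le]
    ring
  rw [edge, edgeP, h3, h4, Int.gcd_comm, Int.gcd, Int.natAbs_neg, Int.natAbs_natCast,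
    Int.natAbs_natCast]
  rfl

theorem main (hb : 0 < b) (hp : p.Prime) [Fintype k] [CharP k p] (hf : HasPolygon p b f n V)
    (e : ℕ) (he : e = ∑ i ∈ Finset.range n, numFactors (edge f V i)) :
    ∃ _ : IsDomain (CoordRing p f),
      (∀ L : ℚ[X], IsLFunction p f L →
        L.rootMultiplicity (1 / (Fintype.card k : ℚ)) ≤ (p - 1) * e) ∧
      ∀ (m : ℕ) (F : Fin m → k[X][X]), f = X ^ b * ∏ i, F i → (∀ i, ¬ IsUnit (F i)) →
        (((p - 1) * m : ℕ) : Cardinal) ≤ classRank (CoordRing p f) := by
  have hdom : IsDomain (CoordRing p f) := hf.pgb.isDomain_K hp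
  refine ⟨hdom, fun L hL => ?_, fun m F hF hu => ?_⟩
  · have h1 := upper_b hf.pgb (by rw [hf.first]; exact hb) hp L hL.1 hL.2
    rw [he]
    refine h1.trans (le_of_eq ?_)
    congr 1
    exact Finset.sum_congr rfl fun i hi => by
      rw [numFactors, hf.edge_eq (Finset.mem_range.1 hi)]
  · have : IsDomain (Pool.Agent.N867.AS.ASR.AS p (Pool.Agent.N867.AS.Core.toK k f)) := hdom
    have h1 := rank_lower_b hf.pgb hp (by rw [hf.first]; exact hb) (by rw [hf.first]; exact hF) hu
    rw [Fintype.card_fin] at h1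
    exact h1

theorem coeffAt_mul (g : k[X][X]) (u : ℕ × ℕ) :
    coeffAt (X ^ b * g) u = if b ≤ u.2 then coeffAt g (u.1, u.2 - b) else 0 := by
  unfold coeffAt
  rw [coeff_X_pow_mul']
  split_ifs
  · rfl
  · rw [coeff_zero]

/-- the polygon with one edge -/
def oneEdge (A B b : ℕ) (i : ℕ) : ℕ × ℕ := if i = 0 then (B, b) else (0, A + b)

theorem hasPolygon_oneEdge {A B : ℕ} (hA : 0 < A) (hB : 0 < B) (hAB : A.Coprime B)
    (hd : B * (A + b) ∣ p - 1) {g : k[X][X]} (hg : LeadsTo A B g) :
    HasPolygon p b (X ^ b * g) 1 (oneEdge A B b) := by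
  have e0 : oneEdge A B b 0 = (B, b) := rfl
  have e1 : oneEdge A B b 1 = (0, A + b) := rfl
  have hdet : det (oneEdge A B b) 0 = ((B * (A + b) : ℕ) : ℤ) := by
    unfold det
    rw [e0, zero_add, e1]
    push_cast
    ring
  refine ⟨one_pos, rfl, fun u hu => ?_, rfl, fun i hi => ?_, fun i hi => ?_, fun i hi => ?_,
    fun i hi => ?_, fun u hu i hi => ?_⟩
  · rw [coeffAt_mul] at hu
    by_contra h
    rw [if_neg h] at hu
    exact hu rfl
  · obtain rfl : i = 0 := by omega
    rw [zero_add, e0, e1]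
    exact hB
  · obtain rfl : i = 0 := by omega
    rw [zero_add, e0, e1]
    show b < A + b
    omega
  · obtain rfl : i = 0 := by omega
    rw [hdet]
    exact_mod_cast hd
  · rcases Nat.le_one_iff_eq_zero_or_eq_one.1 hi with rfl | rfl
    · rw [e0, coeffAt_mul, if_pos le_rfl, Nat.sub_self]
      exact hg.t
    · rw [e1, coeffAt_mul, if_pos (Nat.le_add_left _ _), Nat.add_sub_cancel]
      exact hg.x
  · obtain rfl : i = 0 := by omega
    rw [coeffAt_mul] at hu
    by_cases hb : b ≤ u.2
    · rw [if_pos hb] at hu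
      obtain ⟨l, m⟩ := u
      simp only at hb hu
      obtain ⟨m', rfl⟩ := Nat.exists_eq_add_of_le hb
      rw [Nat.add_sub_cancel_left] at hu
      have h1 := hg.below (l, m') hu
      simp only at h1
      have hform : form (oneEdge A B b) 0 (l, b + m') = ((A * l + B * m' + B * b : ℕ) : ℤ) := by
        unfold form
        rw [e0, zero_add, e1]
        push_cast
        ring
      rw [hform, hdet]
      refine ⟨by exact_mod_cast (by nlinarith : A * l + B * m' + B * b ≤ B * (A + b)),
        fun h2 => ?_⟩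
      have h3 : A * l + B * m' + B * b = B * (A + b) := by exact_mod_cast h2
      have h4 : A * l + B * m' = A * B := by nlinarith
      have h5 : B ∣ A * l := by
        have h6 : B ∣ A * l + B * m' := by rw [h4]; exact dvd_mul_left _ _
        exact (Nat.dvd_add_left (dvd_mul_right B m')).1 h6
      have h7 : B ∣ l := hAB.symm.dvd_of_dvd_mul_left h5
      obtain ⟨c, rfl⟩ := h7
      have h8 : c ≤ 1 := by
        by_contra h
        push Not at h
        have h9 : A * (B * 2) ≤ A * (B * c) := by gcongr; omega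
        have h10 : 0 < A * B := Nat.mul_pos hA hB
        nlinarith
      rcases Nat.le_one_iff_eq_zero_or_eq_one.1 h8 with rfl | rfl
      · right
        rw [zero_add, e1]
        have h11 : B * m' = B * A := by
          rw [mul_zero, mul_zero, zero_add] at h4
          rw [h4, mul_comm]
        have h12 := Nat.eq_of_mul_eq_mul_left hB h11
        rw [mul_zero, h12, Nat.add_comm]
      · left
        rw [e0]
        have h11 : B * m' = 0 := by
          rw [mul_one] at h4
          omega
        have h12 : m' = 0 := by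
          rcases Nat.mul_eq_zero.1 h11 with h | h
          · omega
          · exact h
        rw [mul_one, h12, Nat.add_zero]
    · rw [if_neg hb] at hu
      exact absurd rfl hu

theorem numFactors_edge {A B : ℕ} (hAB : A.Coprime B) {g : k[X][X]} (hg : LeadsTo A B g) :
    numFactors (edge (X ^ b * g) (oneEdge A B b) 0) = 1 := by
  have e0 : oneEdge A B b 0 = (B, b) := rfl
  have e1 : oneEdge A B b 1 = (0, A + b) := rfl
  have h1 : edge (X ^ b * g) (oneEdge A B b) 0 = C (coeffAt g (0, A)) * X + C (coeffAt g (B, 0)) := by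
    unfold edge
    rw [zero_add, e0, e1, coeffAt_mul, coeffAt_mul, if_pos (Nat.le_add_left _ _), if_pos le_rfl,
      Nat.sub_self, Nat.add_sub_cancel]
    have h2 : Int.gcd (((0 : ℕ) : ℤ) - (B : ℤ)) (((A + b : ℕ) : ℤ) - (b : ℤ)) = 1 := by
      have h3 : (((0 : ℕ) : ℤ) - (B : ℤ)) = -(B : ℤ) := by push_cast; ring
      have h4 : (((A + b : ℕ) : ℤ) - (b : ℤ)) = (A : ℤ) := by push_cast; ring
      rw [h3, h4, Int.gcd, Int.natAbs_neg, Int.natAbs_natCast, Int.natAbs_natCast]
      exact hAB.symm
    simp only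
    rw [h2, pow_one]
  rw [h1]
  have h2 : Irreducible (C (coeffAt g (0, A)) * X + C (coeffAt g (B, 0)) : k[X]) :=
    irreducible_of_degree_eq_one (degree_linear hg.x)
  exact UniqueFactorizationMonoid.card_factors_of_irreducible h2

theorem not_isUnit {A B : ℕ} (hA : 0 < A) {g : k[X][X]} (hg : LeadsTo A B g) : ¬ IsUnit g := by
  intro h
  obtain ⟨r, _, hr⟩ := isUnit_iff.1 h
  have h1 := hg.x
  rw [← hr] at h1
  apply h1
  unfold coeffAt
  rw [coeff_C_of_ne_zero hA.ne', coeff_zero]

end

/-- (1) Let `b > 0` and let `f ∈ k[t][x]` have a Newton polygon with the edge polynomials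
`E_0, …, E_{n-1}` as in `HasPolygon`, and let `e` be the number of irreducible factors of
`E_0 ⋯ E_{n-1}`. Then the `L`-function of the Jacobian of `y^p - y = f` over `K = k(t)` (without
the Euler factors at `0` and `∞`) vanishes at `T = 1/q` to order at most `(p-1)e`, and if `f` is the
product of `x^b` and `m` nonconstant polynomials, the class group of `K[x, y]/(y^p - y - f)`, which
is the Mordell–Weil group of the Jacobian, has rank at least `(p-1)m`.

(2) Let `A` and `B` be coprime and `B(A + b)` divide `p - 1`. Then for *every* polynomial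
`g = α t^B + β x^A + ⋯` as in `LeadsTo` the order of vanishing at `T = 1/q` of the `L`-function of
the Jacobian of `y^p - y = x^b g(x, t)` over `K` is at most `p - 1` and the rank is at least
`p - 1`. -/
theorem result (p : ℕ) (hp : p.Prime) (k : Type) [Field k] [Fintype k] [CharP k p] (b : ℕ)
    (hb : 0 < b) :
    (∀ (f : k[X][X]) (n : ℕ) (V : ℕ → ℕ × ℕ), HasPolygon p b f n V →
      ∀ e : ℕ, e = ∑ i ∈ Finset.range n, numFactors (edge f V i) →
      ∃ _ : IsDomain (CoordRing p f),
        (∀ L : ℚ[X], IsLFunction p f L →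
          L.rootMultiplicity (1 / (Fintype.card k : ℚ)) ≤ (p - 1) * e) ∧
        ∀ (m : ℕ) (F : Fin m → k[X][X]), f = X ^ b * ∏ i, F i → (∀ i, ¬ IsUnit (F i)) →
          (((p - 1) * m : ℕ) : Cardinal) ≤ classRank (CoordRing p f)) ∧
    ∀ A B : ℕ, 0 < A → 0 < B → A.Coprime B → B * (A + b) ∣ p - 1 →
      ∀ g : k[X][X], LeadsTo A B g →
      ∃ _ : IsDomain (CoordRing p (X ^ b * g)),
        (∀ L : ℚ[X], IsLFunction p (X ^ b * g) L →
          L.rootMultiplicity (1 / (Fintype.card k : ℚ)) ≤ p - 1) ∧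
        ((p - 1 : ℕ) : Cardinal) ≤ classRank (CoordRing p (X ^ b * g)) := by
  refine ⟨fun f n V hf e he => main hb hp hf e he, fun A B hA hB hAB hd g hg => ?_⟩
  obtain ⟨hdom, h1, h2⟩ := main hb hp (hasPolygon_oneEdge hA hB hAB hd hg) 1
    (by rw [Finset.sum_range_one, numFactors_edge hAB hg])
  refine ⟨hdom, fun L hL => ?_, ?_⟩
  · have := h1 L hL
    rwa [mul_one] at this
  · have := h2 1 (fun _ => g) (by rw [Fin.prod_univ_one]) fun _ => not_isUnit hA hg
    rwa [mul_one] at this

end Pool.Agent.Results.MP_1d384c_nt.RankPMinusOne
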