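import Pool.Agent.V5helper46.SS.Upper

/-!
# Rank and order of vanishing for Jacobians of Artin–Schreier curves `y^p - y = f(x, t)` over
`k(t)` with several slopes at infinity
-/

set_option autoImplicit false

namespace Pool.Agent.Results.MP_1d384c_nt.SeveralSlopesRank

open Polynomial

/-- The coefficient of `t^(u.1) x^(u.2)` in `f ∈ k[t][x]` (outer variable `x`, inner variable
`t`). -/
noncomputable def coeffAt {k : Type} [Field k] (f : k[X][X]) (u : ℕ × ℕ) : k :=
  (f.coeff u.2).coeff u.1

/-- The determinant `D_i` of the vectors `V_i` and `V_{i+1}`. -/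
def det (V : ℕ → ℕ × ℕ) (i : ℕ) : ℤ :=
  ((V i).1 : ℤ) * (V (i + 1)).2 - (V i).2 * (V (i + 1)).1

/-- The linear form `l_i` with value `D_i` at `V_i` and at `V_{i+1}`. -/
def form (V : ℕ → ℕ × ℕ) (i : ℕ) (u : ℕ × ℕ) : ℤ :=
  (u.1 : ℤ) * (((V (i + 1)).2 : ℤ) - (V i).2) - u.2 * (((V (i + 1)).1 : ℤ) - (V i).1)

/-- The Newton polygon of `f` has the vertices `V_0, V_1, …, V_n` (`n > 0`) besides possibly `0`,
where `V_0` is on the axis of the exponents of `t`, `V_n` is on the axis of the exponents of `x`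
and the first coordinate decreases and the second one increases from each vertex to the next; no
exponents other than `V_i` and `V_{i+1}` lie on the edge between these two, and `D_i` divides
`p - 1`. (An exponent `(a, b)` is that of a monomial `t^a x^b`.) -/
structure HasPolygon {k : Type} [Field k] (p : ℕ) (f : k[X][X]) (n : ℕ) (V : ℕ → ℕ × ℕ) :
    Prop where
  edges : 0 < n
  first : (V 0).2 = 0
  last : (V n).1 = 0
  left : ∀ i < n, (V (i + 1)).1 < (V i).1
  up : ∀ i < n, (V i).2 < (V (i + 1)).2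
  size : ∀ i < n, det V i ∣ ((p - 1 : ℕ) : ℤ)
  vertex : ∀ i ≤ n, coeffAt f (V i) ≠ 0
  below : ∀ u, coeffAt f u ≠ 0 → ∀ i < n, form V i u ≤ det V i ∧
    (form V i u = det V i → u = V i ∨ u = V (i + 1))

/-- The polynomial `c_{i+1} X^g + c_i` of the edge from `V_i` to `V_{i+1}`, where `c_i` is the
coefficient at `V_i` and `g` is the greatest common divisor of the coordinates of
`V_{i+1} - V_i`. -/
noncomputable def edge {k : Type} [Field k] (f : k[X][X]) (V : ℕ → ℕ × ℕ) (i : ℕ) : k[X] :=
  C (coeffAt f (V (i + 1))) *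
    X ^ Int.gcd (((V (i + 1)).1 : ℤ) - (V i).1) (((V (i + 1)).2 : ℤ) - (V i).2) +
  C (coeffAt f (V i))

/-- The number of irreducible factors. -/
noncomputable def numFactors {k : Type} [Field k] (P : k[X]) : ℕ :=
  (UniqueFactorizationMonoid.factors P).card

/-- The value `f(x, t)` at a point with coordinates in an algebraic closure of `k`. -/
noncomputable def value {k : Type} [Field k] (f : k[X][X]) (t x : AlgebraicClosure k) :
    AlgebraicClosure k :=
  f.eval₂ (eval₂RingHom (algebraMap k (AlgebraicClosure k)) t) x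

/-- The number of `(t, x, y)` with coordinates in `F_Q = {z : z^Q = z}` such that `t ≠ 0` and
`y^p - y = f(x, t)`. -/
noncomputable def points {k : Type} [Field k] (p : ℕ) (f : k[X][X]) (Q : ℕ) : ℕ :=
  Nat.card {v : AlgebraicClosure k × AlgebraicClosure k × AlgebraicClosure k //
    v.1 ^ Q = v.1 ∧ v.1 ≠ 0 ∧ v.2.1 ^ Q = v.2.1 ∧ v.2.2 ^ Q = v.2.2 ∧
    v.2.2 ^ p - v.2.2 = value f v.1 v.2.1}

/-- The power series `∑_{m ≥ 1} (q^m (q^m - 1) - N_m) T^m`, where `q = #k` and
`N_m = points p f (q^m)`. -/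
noncomputable def traces {k : Type} [Field k] [Fintype k] (p : ℕ) (f : k[X][X]) :
    PowerSeries ℚ :=
  PowerSeries.mk fun m => if m = 0 then 0 else
    (Fintype.card k : ℚ) ^ m * ((Fintype.card k : ℚ) ^ m - 1) -
      (points p f (Fintype.card k ^ m) : ℚ)

/-- `L(T) = exp (∑_{m ≥ 1} (q^m (q^m - 1) - N_m) T^m / m)`: that is, `L(0) = 1` and
`T L' = L ∑_{m ≥ 1} (q^m (q^m - 1) - N_m) T^m`. -/
def IsLFunction {k : Type} [Field k] [Fintype k] (p : ℕ) (f : k[X][X]) (L : ℚ[X]) : Prop :=
  L.coeff 0 = 1 ∧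
    PowerSeries.X * PowerSeries.derivative ℚ (L : PowerSeries ℚ) =
      (L : PowerSeries ℚ) * traces p f

/-- `y^p - y - f` as a polynomial in `y` over `K[x]`, `K = k(t)`. -/
noncomputable def curve {k : Type} [Field k] (p : ℕ) (f : k[X][X]) : (RatFunc k)[X][X] :=
  X ^ p - X - C (f.map (algebraMap k[X] (RatFunc k)))

/-- The affine coordinate ring `K[x, y]/(y^p - y - f)` of the curve `y^p - y = f` over
`K = k(t)`. -/
abbrev CoordRing {k : Type} [Field k] (p : ℕ) (f : k[X][X]) : Type := AdjoinRoot (curve p f)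

/-- The rank of the ideal class group. -/
noncomputable def classRank (R : Type) [CommRing R] [IsDomain R] : Cardinal :=
  Module.rank ℤ (Additive (ClassGroup R))

section

open Pool.Agent.V5helper46.SS

variable {k : Type} [Field k] {p : ℕ} {f : k[X][X]} {n : ℕ} {V : ℕ → ℕ × ℕ}

theorem HasPolygon.det_eq (h : HasPolygon p f n V) {i : ℕ} (hi : i < n) :
    det V i = (wD V i : ℕ) := by
  have h1 := h.up i hi
  have h2 := h.left i hi
  unfold det wD wT wX
  push_cast [Nat.cast_sub h1.le, Nat.cast_sub h2.le]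
  ring

theorem HasPolygon.form_eq (h : HasPolygon p f n V) {i : ℕ} (hi : i < n) (a b : ℕ) :
    form V i (a, b) = ((wT V i * a + wX V i * b : ℕ) : ℤ) := by
  have h1 := h.up i hi
  have h2 := h.left i hi
  unfold form wT wX
  push_cast [Nat.cast_sub h1.le, Nat.cast_sub h2.le]
  ring

theorem HasPolygon.pgn (h : HasPolygon p f n V) : Pgn p f n V where
  pos := h.edges
  first := h.first
  last := h.last
  dec := h.left
  inc := h.up
  size := fun i hi => by
    have h1 := h.size i hi
    rw [h.det_eq hi] at h1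
    exact_mod_cast h1
  vertex := h.vertex
  below := fun l m hlm i hi => by
    have h1 := h.below (l, m) hlm i hi
    rw [h.form_eq hi, h.det_eq hi] at h1
    exact ⟨by exact_mod_cast h1.1, fun h2 => h1.2 (by exact_mod_cast h2)⟩

theorem HasPolygon.edge_eq (h : HasPolygon p f n V) {i : ℕ} (hi : i < n) :
    edge f V i = edgeP f V i := by
  have h1 := h.up i hi
  have h2 := h.left i hi
  have h3 : ((V (i + 1)).1 : ℤ) - (V i).1 = -((wX V i : ℕ) : ℤ) := by
    unfold wX
    push_cast [Nat.cast_sub h2.le]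
    ring
  have h4 : ((V (i + 1)).2 : ℤ) - (V i).2 = ((wT V i : ℕ) : ℤ) := by
    unfold wT
    push_cast [Nat.cast_sub h1.le]
    ring
  rw [edge, edgeP, h3, h4, Int.gcd_comm, Int.gcd, Int.natAbs_neg, Int.natAbs_natCast,
    Int.natAbs_natCast]
  rfl

end

/-- Let `f ∈ k[t][x]` have a Newton polygon with the edge polynomials `E_0, …, E_{n-1}` as in
`HasPolygon`, and let `e` be the number of irreducible factors of `E_0 ⋯ E_{n-1}`. Then the
`L`-function of the Jacobian of `y^p - y = f` over `K = k(t)` (without the Euler factors at `0`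
and `∞`) vanishes at `T = 1/q` to order at most `(p-1)(e-1)`, and if `f` is a product of `m`
nonconstant polynomials, the class group of `K[x, y]/(y^p - y - f)`, which is the Mordell–Weil
group of the Jacobian, has rank at least `(p-1)(m-1)`. -/
theorem result (p : ℕ) (hp : p.Prime) (k : Type) [Field k] [Fintype k] [CharP k p]
    (f : k[X][X]) (n : ℕ) (V : ℕ → ℕ × ℕ) (hf : HasPolygon p f n V) (e : ℕ)
    (he : e = ∑ i ∈ Finset.range n, numFactors (edge f V i)) :
    ∃ _ : IsDomain (CoordRing p f),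
      (∀ L : ℚ[X], IsLFunction p f L →
        L.rootMultiplicity (1 / (Fintype.card k : ℚ)) ≤ (p - 1) * (e - 1)) ∧
      ∀ (m : ℕ) (F : Fin m → k[X][X]), f = ∏ i, F i → (∀ i, ¬ IsUnit (F i)) →
        (((p - 1) * (m - 1) : ℕ) : Cardinal) ≤ classRank (CoordRing p f) := by
  have hdom : IsDomain (CoordRing p f) :=
    Pool.Agent.V5helper46.SS.isDomain_K hf.pgn hp
  refine ⟨hdom, fun L hL => ?_, fun m F hF hu => ?_⟩
  · have h1 := Pool.Agent.V5helper46.SS.upper hf.pgn hp L hL.1 hL.2
    rw [he]
    refine h1.trans (le_of_eq ?_)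
    congr 2
    exact Finset.sum_congr rfl fun i hi => by
      rw [numFactors, hf.edge_eq (Finset.mem_range.1 hi)]
  · have : IsDomain (Pool.Agent.N867.AS.ASR.AS p (Pool.Agent.N867.AS.Core.toK k f)) := hdom
    have h1 := Pool.Agent.V5helper46.SS.rank_lower hf.pgn hp hF hu
    rw [Fintype.card_fin] at h1
    exact h1

end Pool.Agent.Results.MP_1d384c_nt.SeveralSlopesRank
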